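import Pool.Agent.W525.CB.Stm

set_option autoImplicit false

namespace Pool.Agent.W140.CB.BASZ

open Pool.Agent.W525.CB

theorem main (h : S_DIM) : S_BASZ := by
  intro n k _ _ _ _ L _ _ x hn hx hsum htr σ hadj
  classical
  have hcharL : CharP L (n + 2) :=
    charP_of_injective_algebraMap (algebraMap k L).injective (n + 2)
  have hp0 : ((n + 2 : ℕ) : L) = 0 := CharP.cast_eq_zero L (n + 2)
  let D := KaehlerDifferential.D ℤ L
  let N : Submodule L (Ω[L⁄ℤ]) := Submodule.span L (Set.range (cfamZ x σ))
  let K' : IntermediateField k L :=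
    { carrier := {f | D f ∈ N}
      mul_mem' := fun {a b} ha hb => by
        change D (a * b) ∈ N
        rw [D.leibniz]
        exact N.add_mem (N.smul_mem _ hb) (N.smul_mem _ ha)
      one_mem' := by
        change D 1 ∈ N
        rw [D.map_one_eq_zero]
        exact N.zero_mem
      add_mem' := fun {a b} ha hb => by
        change D (a + b) ∈ N
        rw [map_add]
        exact N.add_mem ha hb
      zero_mem' := by
        change D 0 ∈ N
        rw [map_zero]
        exact N.zero_mem
      algebraMap_mem' := fun c => by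
        change D (algebraMap k L c) ∈ N
        obtain ⟨b, hb⟩ := IsAlgClosed.exists_pow_nat_eq c (n := n + 2) (by omega)
        rw [← hb, map_pow, D.leibniz_pow, ← Nat.cast_smul_eq_nsmul L, hp0, zero_smul]
        exact N.zero_mem
      inv_mem' := fun a ha => by
        change D a⁻¹ ∈ N
        rw [D.leibniz_inv]
        exact N.smul_mem _ ha }
  have hD5 : ∀ s : L, D (s ^ (2 * n + 5)) = s ^ (2 * n + 4) • D s := by
    intro s
    have h5 : ((2 * n + 5 : ℕ) : L) = 1 := by
      have : (2 * n + 5 : ℕ) = 2 * (n + 2) + 1 := by ring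
      rw [this, Nat.cast_add, Nat.cast_mul, hp0]
      simp
    rw [D.leibniz_pow, ← Nat.cast_smul_eq_nsmul L, h5, one_smul]
    rfl
  have hss : ∑ i, ss x σ i ^ (2 * n + 5) = 0 := by
    have h5 : ∀ i, ss x σ i ^ (2 * n + 5) = x (σ i) ^ (2 * n + 5) / x (σ 0) ^ (2 * n + 5) := by
      intro i
      unfold ss
      rw [div_pow]
    rw [Finset.sum_congr rfl (fun i _ => h5 i), ← Finset.sum_div,
      Equiv.sum_comp σ (fun i => x i ^ (2 * n + 5)), hsum, zero_div]
  have hDs : ∑ i, ss x σ i ^ (2 * n + 4) • D (ss x σ i) = 0 := by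
    have h5 := congrArg D hss
    rw [map_sum, map_zero] at h5
    rw [← h5]
    exact Finset.sum_congr rfl (fun i _ => (hD5 _).symm)
  rw [Fin.sum_univ_succ, Fin.sum_univ_succ] at hDs
  have hs0 : ss x σ 0 = 1 := div_self (hx _)
  have hs1 : ss x σ (Fin.succ 0) ≠ 0 := div_ne_zero (hx _) (hx _)
  have hmem : ∀ i : Fin (n + 1), D (ss x σ i.succ.succ) ∈ N := fun i =>
    Submodule.subset_span ⟨i, rfl⟩
  have hD1 : D (ss x σ (Fin.succ 0)) ∈ N := by
    rw [hs0, D.map_one_eq_zero, smul_zero, zero_add] at hDs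
    have h5 : ss x σ (Fin.succ 0) ^ (2 * n + 4) • D (ss x σ (Fin.succ 0)) ∈ N := by
      rw [eq_neg_of_add_eq_zero_left hDs]
      exact N.neg_mem (N.sum_mem fun i _ => N.smul_mem _ (hmem i))
    exact (N.smul_mem_iff (pow_ne_zero _ hs1)).1 h5
  have hK' : K' = ⊤ := by
    rw [eq_top_iff, ← hadj, IntermediateField.adjoin_le_iff]
    rintro _ ⟨i, rfl⟩
    change D (ss x σ i) ∈ N
    induction i using Fin.cases with
    | zero =>
      rw [hs0, D.map_one_eq_zero]
      exact N.zero_mem
    | succ i =>
      induction i using Fin.cases with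
      | zero => exact hD1
      | succ i => exact hmem i
  have hN : N = ⊤ := by
    rw [eq_top_iff, ← KaehlerDifferential.span_range_derivation ℤ L, Submodule.span_le]
    rintro _ ⟨f, rfl⟩
    have h5 : f ∈ K' := by rw [hK']; trivial
    exact h5
  have hli : LinearIndependent L (cfamZ x σ) := by
    refine h k (n + 2) L (Finset.univ.image (ss x σ)) ?_ (Fin (n + 1)) (cfamZ x σ) ?_ hN
    · rw [Finset.coe_image, Finset.coe_univ, Set.image_univ]
      exact hadj
    · rw [Fintype.card_fin]
      exact htr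
  exact ⟨Module.Basis.mk hli hN.ge, fun i => Module.Basis.mk_apply hli hN.ge i⟩

end Pool.Agent.W140.CB.BASZ
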